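import Mathlib
import Pool.Agent.Hhelper61.CycExp.Num

/-!
# Distance labelings of cycles with `n^{3/2} exp (-c √(log n))` labels

`lam n` is the minimum number of labels in a distance labeling of the cycles `C_3, ..., C_n`.
We prove `lam n ≤ C n^{3/2} exp (-√(log n) / 25)`; in particular the conjecture
`lam n = n √n / √6 + O(n)` is false.
-/

namespace Pool.Agent.Results.MP_30c5a0_lc.ExpSqrtLog

open Filter Asymptotics

/-- `φ` (a map from the vertices of the disjoint cycles `C_i`, here `Fin i` with Mathlib's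
`SimpleGraph.cycleGraph i`, to a set `L` of labels) is a distance labeling of
`{C_3, ..., C_n}`: there is `d' : L × L → ℤ` with `d' (φ u) (φ v) = d(u, v)` whenever `u, v` lie
in the same cycle `C_i`, `3 ≤ i ≤ n`. -/
def IsDistanceLabeling (n : ℕ) {L : Type} (φ : (i : ℕ) → Fin i → L) : Prop :=
  ∃ d' : L → L → ℤ, ∀ i : ℕ, 3 ≤ i → i ≤ n → ∀ u v : Fin i,
    d' (φ i u) (φ i v) = ((SimpleGraph.cycleGraph i).dist u v : ℤ)

/-- the set of labels used by `φ` on the cycles `C_3, ..., C_n` -/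
def labelsUsed (n : ℕ) {L : Type} (φ : (i : ℕ) → Fin i → L) : Set L :=
  {x | ∃ i : ℕ, 3 ≤ i ∧ i ≤ n ∧ ∃ u : Fin i, φ i u = x}

/-- `λ(n)`: the minimum, over all distance labelings of `{C_3, ..., C_n}`, of the number of
distinct labels used -/
noncomputable def lam (n : ℕ) : ℕ :=
  sInf {k : ℕ | ∃ (L : Type) (φ : (i : ℕ) → Fin i → L),
    IsDistanceLabeling n φ ∧ (labelsUsed n φ).ncard = k}

theorem labelsUsed_finite (n : ℕ) {L : Type} (φ : (i : ℕ) → Fin i → L) :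
    (labelsUsed n φ).Finite := by
  apply Set.Finite.subset (s := ⋃ i ∈ Set.Iic n, Set.range (φ i))
  · exact Set.Finite.biUnion (Set.finite_Iic n) (fun i _ => Set.finite_range (φ i))
  · rintro x ⟨i, _, hi, u, rfl⟩
    simp only [Set.mem_iUnion]
    exact ⟨i, hi, u, rfl⟩

/-- the minimum in the definition of `lam` is attained (every labeling uses finitely many labels
and labelings exist) -/
theorem lam_attained (n : ℕ) : ∃ (L : Type) (φ : (i : ℕ) → Fin i → L),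
    IsDistanceLabeling n φ ∧ (labelsUsed n φ).ncard = lam n := by
  have hne : {k : ℕ | ∃ (L : Type) (φ : (i : ℕ) → Fin i → L),
      IsDistanceLabeling n φ ∧ (labelsUsed n φ).ncard = k}.Nonempty := by
    classical
    refine ⟨_, (Σ i : ℕ, Fin i), fun i u => ⟨i, u⟩, ⟨fun x y => if h : x.1 = y.1 then
      ((SimpleGraph.cycleGraph y.1).dist (h ▸ x.2) y.2 : ℤ) else 0, ?_⟩, rfl⟩
    intro i _ _ u v
    simp
  exact Nat.sInf_mem hne

theorem lam_le_of_good {n M : ℕ} (hg : Pool.Agent.Hhelper79.CycleLabel.Good {i | i < n + 1} M) :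
    lam n ≤ M := by
  classical
  obtain ⟨L, S, φ, h1, h2, h3⟩ := hg
  let ψ : (i : ℕ) → Fin i → L := fun i u => φ i u.val
  have hlab : IsDistanceLabeling n ψ := by
    let P : L → L → ℤ → Prop := fun x y k => ∃ i, 3 ≤ i ∧ i ≤ n ∧ ∃ u v : Fin i,
      ψ i u = x ∧ ψ i v = y ∧ ((SimpleGraph.cycleGraph i).dist u v : ℤ) = k
    refine ⟨fun x y => if h : ∃ k, P x y k then h.choose else 0, ?_⟩
    intro i hi3 hin u v
    have hex : ∃ k, P (ψ i u) (ψ i v) k := ⟨_, i, hi3, hin, u, v, rfl, rfl, rfl⟩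
    simp only [dif_pos hex]
    obtain ⟨j, hj3, hjn, u', v', e1, e2, e3⟩ := hex.choose_spec
    rw [← e3, Pool.Agent.Hhelper79.CycleLabel.cycle_dist j (by omega),
      Pool.Agent.Hhelper79.CycleLabel.cycle_dist i (by omega)]
    have := h3 j (by simpa using (by omega : j < n + 1)) i (by simpa using (by omega : i < n + 1))
      u'.val u'.isLt v'.val v'.isLt u.val u.isLt v.val v.isLt e1 e2
    exact_mod_cast this
  have hsub : labelsUsed n ψ ⊆ (S : Set L) := by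
    rintro x ⟨i, _, hi, u, rfl⟩
    exact h2 i (by simpa using (by omega : i < n + 1)) u.val u.isLt
  calc lam n ≤ (labelsUsed n ψ).ncard := Nat.sInf_le ⟨L, ψ, hlab, rfl⟩
    _ ≤ (S : Set L).ncard := Set.ncard_le_ncard hsub S.finite_toSet
    _ = S.card := Set.ncard_coe_finset S
    _ ≤ M := h1

theorem sqrt_log_bound {n T : ℕ} (hn : 1 ≤ n) (h : n < 2 ^ (81 * (T + 1) ^ 2)) :
    √(Real.log n) / 25 ≤ Real.log 2 / 2 * (T + 1) := by
  have hn0 : (0 : ℝ) < n := by exact_mod_cast hn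
  have hl2 : (0.6931 : ℝ) < Real.log 2 := by
    have := Real.log_two_gt_d9
    linarith
  have h1 : Real.log n ≤ 81 * (T + 1) ^ 2 * Real.log 2 := by
    have h2 : (n : ℝ) ≤ (2 : ℝ) ^ (81 * (T + 1) ^ 2) := by exact_mod_cast h.le
    have h3 := Real.log_le_log hn0 h2
    rw [Real.log_pow] at h3
    push_cast at h3
    exact h3
  clear h
  have h4 : √(Real.log n) ≤ 25 / 2 * Real.log 2 * (T + 1) := by
    apply Real.sqrt_le_iff.2
    constructor
    · positivity
    · refine h1.trans ?_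
      have h5 : (81 : ℝ) ≤ (25 / 2) ^ 2 * Real.log 2 := by nlinarith
      have h6 : (0 : ℝ) ≤ (T + 1) ^ 2 * Real.log 2 := by positivity
      calc (81 : ℝ) * (T + 1) ^ 2 * Real.log 2 = 81 * ((T + 1) ^ 2 * Real.log 2) := by ring
        _ ≤ ((25 / 2) ^ 2 * Real.log 2) * ((T + 1) ^ 2 * Real.log 2) :=
          mul_le_mul_of_nonneg_right h5 h6
        _ = (25 / 2 * Real.log 2 * (T + 1)) ^ 2 := by ring
  linarith

theorem exp_bound {n T : ℕ} (hn : 1 ≤ n) (h : n < 2 ^ (81 * (T + 1) ^ 2)) :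
    1 / √((2 : ℝ) ^ T) ≤ 2 * Real.exp (-(√(Real.log n) / 25)) := by
  have h1 := sqrt_log_bound hn h
  have h2 : Real.exp (-(Real.log 2 / 2 * (T + 1))) ≤ Real.exp (-(√(Real.log n) / 25)) :=
    Real.exp_le_exp.2 (by linarith)
  have h3 : Real.exp (-(Real.log 2 / 2 * (T + 1))) = (√((2 : ℝ) ^ (T + 1)))⁻¹ := by
    rw [Real.exp_neg]
    congr 1
    have h4 : Real.exp (Real.log 2 / 2 * (T + 1)) ^ 2 = (2 : ℝ) ^ (T + 1) := by
      rw [← Real.exp_nat_mul]
      have : ((2 : ℕ) : ℝ) * (Real.log 2 / 2 * (T + 1)) = ((T + 1 : ℕ) : ℝ) * Real.log 2 := by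
        push_cast
        ring
      rw [this, Real.exp_nat_mul, Real.exp_log (by norm_num)]
    rw [← h4, Real.sqrt_sq (Real.exp_pos _).le]
  have h5 : √((2 : ℝ) ^ (T + 1)) ≤ 2 * √((2 : ℝ) ^ T) := by
    rw [pow_succ', Real.sqrt_mul (by norm_num)]
    have : √(2 : ℝ) ≤ 2 := by
      apply Real.sqrt_le_iff.2
      norm_num
    exact mul_le_mul_of_nonneg_right this (Real.sqrt_nonneg _)
  have h6 : 0 < √((2 : ℝ) ^ T) := by positivity
  have h7 : 0 < √((2 : ℝ) ^ (T + 1)) := by positivity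
  calc 1 / √((2 : ℝ) ^ T) ≤ 2 * (√((2 : ℝ) ^ (T + 1)))⁻¹ := by
        rw [← div_eq_mul_inv, div_le_div_iff₀ h6 h7]
        linarith
    _ = 2 * Real.exp (-(Real.log 2 / 2 * (T + 1))) := by rw [h3]
    _ ≤ _ := mul_le_mul_of_nonneg_left h2 (by norm_num)

theorem lam_le (n : ℕ) (hn : 1 ≤ n) :
    (lam n : ℝ) ≤ 2 ^ 44 * (n * √n) * Real.exp (-(√(Real.log n) / 25)) := by
  have hn1r : (1 : ℝ) ≤ n := by exact_mod_cast hn
  have hnn : 0 ≤ (n : ℝ) * √n := by positivity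
  set T := Nat.sqrt (Nat.log 2 n / 81) with hT
  have h1 : Nat.log 2 n / 81 < (T + 1) * (T + 1) := Nat.lt_succ_sqrt _
  have h2 : T * T ≤ Nat.log 2 n / 81 := Nat.sqrt_le _
  have h3 : n < 2 ^ (81 * (T + 1) ^ 2) := by
    have h4 : n < 2 ^ (Nat.log 2 n + 1) := Nat.lt_pow_succ_log_self (by norm_num) n
    refine lt_of_lt_of_le h4 (Nat.pow_le_pow_right (by norm_num) ?_)
    have : 81 * (T + 1) ^ 2 = 81 * ((T + 1) * (T + 1)) := by ring
    omega
  have h5 : 2 ^ (81 * T ^ 2) ≤ n := by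
    refine le_trans (Nat.pow_le_pow_right (by norm_num) ?_) (Nat.pow_log_le_self 2 (by omega))
    have : 81 * T ^ 2 = 81 * (T * T) := by ring
    omega
  have hexp := exp_bound hn h3
  rcases Nat.eq_zero_or_pos T with hT0 | hT0
  · rw [hT0] at h3 hexp
    have h6 : (lam n : ℝ) ≤ ((n + 1) * (n + 1) : ℕ) := by
      exact_mod_cast lam_le_of_good (Pool.Agent.Hhelper79.CycleLabel.good_trivial (n + 1))
    have h7 : √(n : ℝ) ≤ 2 ^ 41 := by
      apply Real.sqrt_le_iff.2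
      refine ⟨by positivity, ?_⟩
      have : (n : ℝ) ≤ (2 : ℝ) ^ (81 * (0 + 1) ^ 2) := by exact_mod_cast h3.le
      refine this.trans ?_
      norm_num
    have h8 : (((n + 1) * (n + 1) : ℕ) : ℝ) ≤ 4 * (n * √n) * √n := by
      have : √(n : ℝ) * √n = n := Real.mul_self_sqrt (by positivity)
      push_cast
      calc ((n : ℝ) + 1) * (n + 1) ≤ (2 * n) * (2 * n) := by nlinarith
        _ = 4 * n * (√n * √n) := by rw [this]; ring
        _ = 4 * (n * √n) * √n := by ring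
    have h9 : (1 : ℝ) ≤ 2 * Real.exp (-(√(Real.log n) / 25)) := by simpa using hexp
    calc (lam n : ℝ) ≤ 4 * (n * √n) * √n := h6.trans h8
      _ ≤ 4 * (n * √n) * 2 ^ 41 := by gcongr
      _ = 2 ^ 43 * (n * √n) * 1 := by ring
      _ ≤ 2 ^ 43 * (n * √n) * (2 * Real.exp (-(√(Real.log n) / 25))) := by gcongr
      _ = 2 ^ 44 * (n * √n) * Real.exp (-(√(Real.log n) / 25)) := by ring
  · obtain ⟨M, hg, hM⟩ := Pool.Agent.Hhelper61.CycExp.main_T hT0 h5
    have h6 : (lam n : ℝ) ≤ M := by exact_mod_cast lam_le_of_good hg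
    calc (lam n : ℝ) ≤ 40 * (n * √n) / √((2 : ℝ) ^ T) := h6.trans hM
      _ = 40 * (n * √n) * (1 / √((2 : ℝ) ^ T)) := by ring
      _ ≤ 40 * (n * √n) * (2 * Real.exp (-(√(Real.log n) / 25))) := by gcongr
      _ = 80 * (n * √n) * Real.exp (-(√(Real.log n) / 25)) := by ring
      _ ≤ 2 ^ 44 * (n * √n) * Real.exp (-(√(Real.log n) / 25)) := by
        gcongr
        norm_num

theorem lam_isLittleO :
    (fun n : ℕ => (lam n : ℝ)) =o[atTop] (fun n : ℕ => (n : ℝ) * √n) := by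
  rw [isLittleO_iff]
  intro ε hε
  have h1 : Tendsto (fun n : ℕ => 2 ^ 44 * Real.exp (-(√(Real.log n) / 25))) atTop (nhds 0) := by
    have h2 : Tendsto (fun n : ℕ => √(Real.log n) / 25) atTop atTop :=
      ((Real.tendsto_sqrt_atTop.comp (Real.tendsto_log_atTop.comp
        tendsto_natCast_atTop_atTop))).atTop_div_const (by norm_num)
    have h3 := (Real.tendsto_exp_neg_atTop_nhds_zero.comp h2).const_mul ((2 : ℝ) ^ 44)
    simpa using h3
  filter_upwards [h1.eventually (gt_mem_nhds hε), eventually_ge_atTop 1] with n hn hn1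
  rw [Real.norm_of_nonneg (by positivity), Real.norm_of_nonneg (by positivity)]
  calc (lam n : ℝ) ≤ 2 ^ 44 * (n * √n) * Real.exp (-(√(Real.log n) / 25)) := lam_le n hn1
    _ = (2 ^ 44 * Real.exp (-(√(Real.log n) / 25))) * (n * √n) := by ring
    _ ≤ ε * (n * √n) := mul_le_mul_of_nonneg_right hn.le (by positivity)

/-- `λ(n) ≤ C n^{3/2} exp (-√(log n) / 25)` for all `n ≥ 1`, and the conjecture
`λ(n) = n √n / √6 + O(n)` is false. -/
theorem result :
    (∃ C : ℝ, ∀ n : ℕ, 1 ≤ n →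
      (lam n : ℝ) ≤ C * ((n : ℝ) * √n) * Real.exp (-(√(Real.log n) / 25))) ∧
    ¬ ∃ C : ℝ, ∀ n : ℕ, 3 ≤ n → |(lam n : ℝ) - (n : ℝ) * √n / √6| ≤ C * n := by
  refine ⟨⟨2 ^ 44, fun n hn => lam_le n hn⟩, ?_⟩
  rintro ⟨C, hC⟩
  have h6 : 0 < √(6 : ℝ) := by positivity
  have h1 := (isLittleO_iff.mp lam_isLittleO) (show (0 : ℝ) < 1 / (2 * √6) by positivity)
  obtain ⟨K, hK⟩ := exists_nat_gt ((2 * √6 * |C|) ^ 2)
  obtain ⟨n, hn1, hn2, hn3⟩ :=
    (h1.and ((eventually_ge_atTop 3).and (eventually_ge_atTop K))).exists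
  rw [Real.norm_of_nonneg (by positivity), Real.norm_of_nonneg (by positivity)] at hn1
  have hnpos : (0 : ℝ) < n := by exact_mod_cast (by omega : 0 < n)
  have h2 := hC n hn2
  have h3 : (n : ℝ) * √n / √6 - lam n ≤ C * n := by
    have := neg_abs_le ((lam n : ℝ) - (n : ℝ) * √n / √6)
    linarith
  have h4 : (n : ℝ) * √n / √6 = 1 / √6 * (n * √n) := by ring
  have h5 : 1 / (2 * √6) = 1 / 2 * (1 / √(6 : ℝ)) := by field_simp
  have h6' : 1 / 2 * (1 / √6) * (n * √n) ≤ C * n := by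
    rw [h4] at h3
    rw [h5] at hn1
    linarith
  have h7 : 1 / 2 * (1 / √6) * √(n : ℝ) ≤ C := by
    have : (1 / 2 * (1 / √6) * √n) * n ≤ C * n := by linarith
    exact le_of_mul_le_mul_right this hnpos
  have h8 : √(n : ℝ) ≤ 2 * √6 * |C| := by
    have h9 : 1 / 2 * (1 / √6) * √(n : ℝ) ≤ |C| := h7.trans (le_abs_self C)
    have h10 : √(n : ℝ) = (2 * √6) * (1 / 2 * (1 / √6) * √(n : ℝ)) := by field_simp
    rw [h10]
    exact mul_le_mul_of_nonneg_left h9 (by positivity)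
  have h11 : (n : ℝ) ≤ (2 * √6 * |C|) ^ 2 := by
    rw [← Real.sq_sqrt hnpos.le]
    exact pow_le_pow_left₀ (Real.sqrt_nonneg _) h8 2
  have h12 : (K : ℝ) ≤ n := by exact_mod_cast hn3
  linarith

end Pool.Agent.Results.MP_30c5a0_lc.ExpSqrtLog
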