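import Mathlib
import Pool.Agent.Hhelper71.PosP.Places

/-!
# Distance labelings of cycles whose labels occur near boundedly many places

All known simple distance labelings of the cycles `C_3, ..., C_n` have `Θ(n ^ (3/2))` labels, and in all of them every
label always sits at the same place of its cycle, counted from a fixed base vertex in one of the two directions. We prove
that `n ^ (3/2)` is the right order for all labelings of this kind, also if a label may occur near several places.

Number the vertices of each cycle `C_i` by integers, in cyclic order modulo `i`, all of absolute value at most `T * n`.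
Suppose every label `x` only occurs at vertices whose number is within `E` of one of finitely many integers, its places,
and that there are at most `K` places per label on average. The minimum number `lamP n T K E` of labels in such a distance
labeling satisfies `n ^ (3/2) / (1415 * √(T * (E + 1)) * K) ≤ lamP n T K E ≤ 4 * n ^ (3/2)`.
-/

set_option autoImplicit false

namespace Pool.Agent.Results.MP_30c5a0_lc.PlacedLabels

/-- `φ` (a map from the vertices of the disjoint cycles `C_i`, here `Fin i` with Mathlib's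
`SimpleGraph.cycleGraph i`, to a set `L` of labels) is a distance labeling of
`{C_3, ..., C_n}`: there is `d' : L × L → ℤ` with `d' (φ u) (φ v) = d(u, v)` whenever `u, v` lie
in the same cycle `C_i`, `3 ≤ i ≤ n`. -/
def IsDistanceLabeling (n : ℕ) {L : Type} (φ : (i : ℕ) → Fin i → L) : Prop :=
  ∃ d' : L → L → ℤ, ∀ i : ℕ, 3 ≤ i → i ≤ n → ∀ u v : Fin i,
    d' (φ i u) (φ i v) = ((SimpleGraph.cycleGraph i).dist u v : ℤ)

/-- the set of labels used by `φ` on the cycles `C_3, ..., C_n` -/
def labelsUsed (n : ℕ) {L : Type} (φ : (i : ℕ) → Fin i → L) : Set L :=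
  {x | ∃ i : ℕ, 3 ≤ i ∧ i ≤ n ∧ ∃ u : Fin i, φ i u = x}

/-- `v` numbers the vertices of each cycle `C_i`, `3 ≤ i ≤ n`, by integers of absolute value at most `T * n`, in cyclic
order modulo `i`: the distance of any two vertices of `C_i` is the absolute value of the difference of their numbers,
reduced by a suitable multiple of `i` -/
def IsNumbering (n T : ℕ) (v : (i : ℕ) → Fin i → ℤ) : Prop :=
  ∀ i : ℕ, 3 ≤ i → i ≤ n →
    (∀ u w : Fin i, ∃ m : ℤ, |v i u - v i w - m * i| = ((SimpleGraph.cycleGraph i).dist u w : ℤ)) ∧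
    ∀ u : Fin i, |v i u| ≤ (T : ℤ) * n

/-- for a suitable numbering `v` of the vertices and suitable finite sets `A x` of places, every label `x` only occurs at
vertices with a number within `E` of a place in `A x`, and the labels have at most `K` places on average -/
def IsPlaced (n T K E : ℕ) {L : Type} (φ : (i : ℕ) → Fin i → L) : Prop :=
  ∃ v : (i : ℕ) → Fin i → ℤ, IsNumbering n T v ∧
    ∃ A : L → Finset ℤ,
      (∀ i : ℕ, 3 ≤ i → i ≤ n → ∀ u : Fin i, ∃ a ∈ A (φ i u), |v i u - a| ≤ E) ∧
      ∑ᶠ x ∈ labelsUsed n φ, (A x).card ≤ K * (labelsUsed n φ).ncard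

/-- the minimum, over all distance labelings of `{C_3, ..., C_n}` that are placed with parameters `T`, `K`, `E`, of the
number of distinct labels used -/
noncomputable def lamP (n T K E : ℕ) : ℕ :=
  sInf {k : ℕ | ∃ (L : Type) (φ : (i : ℕ) → Fin i → L),
    IsDistanceLabeling n φ ∧ IsPlaced n T K E φ ∧ (labelsUsed n φ).ncard = k}

/-- the classical labeling by two chains is placed, even with `T = K = 1` and `E = 0` -/
theorem two_chains (n T K E : ℕ) (hT : 1 ≤ T) (hK : 1 ≤ K) :
    ∃ (L : Type) (φ : (i : ℕ) → Fin i → L), IsDistanceLabeling n φ ∧ IsPlaced n T K E φ ∧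
      (labelsUsed n φ).ncard ≤ (n + 2) * (Nat.sqrt n + 1) := by
  classical
  refine ⟨Bool × ℕ × ℕ, Hhelper71.PosP.cphi (Nat.sqrt n + 1),
    ⟨Hhelper71.PosP.cdd (Nat.sqrt n + 1), fun i h3 _ u v => Hhelper71.PosP.chain_dist _ i h3 u v⟩,
    ⟨Hhelper71.PosP.cnum, fun i h3 hi => ⟨fun u w => Hhelper71.PosP.chain_num i h3 u w, fun u => ?_⟩,
      Hhelper71.PosP.cpl, fun i h3 hi u => ?_, ?_⟩, Hhelper71.PosP.chain_count n⟩
  · refine (Hhelper71.PosP.chain_bound n i hi u).trans ?_
    refine mul_le_mul_of_nonneg_right ?_ (by positivity)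
    exact_mod_cast hT
  · obtain ⟨a, ha, h⟩ := Hhelper71.PosP.chain_place (Nat.sqrt n + 1) i u
    exact ⟨a, ha, h.trans (by positivity)⟩
  · have hfin : (labelsUsed n (Hhelper71.PosP.cphi (Nat.sqrt n + 1))).Finite :=
      Hhelper71.PosP.LU_finite n _
    rw [finsum_mem_eq_finite_toFinset_sum _ hfin, Set.ncard_eq_toFinset_card _ hfin]
    calc ∑ x ∈ hfin.toFinset, (Hhelper71.PosP.cpl x).card ≤ ∑ x ∈ hfin.toFinset, 1 := by
          refine Finset.sum_le_sum fun x _ => ?_
          unfold Hhelper71.PosP.cpl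
          rw [Finset.card_singleton]
      _ = 1 * hfin.toFinset.card := by rw [Finset.sum_const, smul_eq_mul, mul_one, one_mul]
      _ ≤ K * hfin.toFinset.card := Nat.mul_le_mul_right _ hK

/-- the minimum in the definition of `lamP` is attained -/
theorem lamP_attained (n T K E : ℕ) (hT : 1 ≤ T) (hK : 1 ≤ K) :
    ∃ (L : Type) (φ : (i : ℕ) → Fin i → L),
      IsDistanceLabeling n φ ∧ IsPlaced n T K E φ ∧ (labelsUsed n φ).ncard = lamP n T K E := by
  have hne : {k : ℕ | ∃ (L : Type) (φ : (i : ℕ) → Fin i → L),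
      IsDistanceLabeling n φ ∧ IsPlaced n T K E φ ∧ (labelsUsed n φ).ncard = k}.Nonempty := by
    obtain ⟨L, φ, h1, h2, -⟩ := two_chains n T K E hT hK
    exact ⟨_, L, φ, h1, h2, rfl⟩
  exact Nat.sInf_mem hne

/-- `n ^ (3/2)` is the order of growth of the minimum number of labels in the distance labelings of `C_3, ..., C_n` whose
labels occur near a bounded number of places (on average), with explicit dependence on all parameters. -/
theorem result (n T K E : ℕ) (hn : 3 ≤ n) (hT : 1 ≤ T) (hK : 1 ≤ K) :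
    (n : ℝ) ^ (3 / 2 : ℝ) ≤ 1415 * Real.sqrt (T * (E + 1)) * K * lamP n T K E ∧
      (lamP n T K E : ℝ) ≤ 4 * (n : ℝ) ^ (3 / 2 : ℝ) := by
  have hn0 : (0 : ℝ) ≤ n := Nat.cast_nonneg n
  have hpow : (n : ℝ) ^ (3 / 2 : ℝ) = Real.sqrt ((n : ℝ) ^ 3) := by
    rw [Real.sqrt_eq_rpow, ← Real.rpow_natCast, ← Real.rpow_mul hn0]
    norm_num
  constructor
  · obtain ⟨L, φ, h1, ⟨v, hv, A, hA, hS⟩, h3⟩ := lamP_attained n T K E hT hK
    have hfin : (labelsUsed n φ).Finite := Hhelper71.PosP.LU_finite n φ
    have h4 := Hhelper71.PosP.places (E := E) hn hT φ v h1 (fun i h3 hi => (hv i h3 hi).1)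
      (fun i h3 hi => (hv i h3 hi).2) A hA
    rw [finsum_mem_eq_finite_toFinset_sum _ hfin, h3] at hS
    have h5 : n ^ 3 ≤ 2000000 * T * (E + 1) * (K * lamP n T K E) ^ 2 :=
      h4.trans (Nat.mul_le_mul_left _ (Nat.pow_le_pow_left hS 2))
    have h6 : (n : ℝ) ^ 3 ≤ 2000000 * T * (E + 1) * (K * lamP n T K E) ^ 2 := by exact_mod_cast h5
    rw [hpow]
    apply Real.sqrt_le_iff.2
    refine ⟨by positivity, h6.trans ?_⟩
    have h7 : (0 : ℝ) ≤ T * (E + 1) := by positivity
    have h8 : (1415 * Real.sqrt (T * (E + 1)) * K * lamP n T K E) ^ 2 =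
        2002225 * (T * (E + 1)) * (K * lamP n T K E) ^ 2 := by
      have h9 := Real.sq_sqrt h7
      calc (1415 * Real.sqrt (T * (E + 1)) * K * lamP n T K E) ^ 2
          = 2002225 * (Real.sqrt (T * (E + 1)) ^ 2) * (K * lamP n T K E) ^ 2 := by ring
        _ = _ := by rw [h9]
    rw [h8]
    have h10 : (0 : ℝ) ≤ (T * (E + 1)) * (K * lamP n T K E) ^ 2 := by positivity
    nlinarith
  · obtain ⟨L, φ, h1, h2, h3⟩ := two_chains n T K E hT hK
    have h4 : lamP n T K E ≤ (n + 2) * (Nat.sqrt n + 1) := by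
      refine le_trans (Nat.sInf_le ?_) h3
      exact ⟨L, φ, h1, h2, rfl⟩
    have h5 : (lamP n T K E : ℝ) ≤ (n + 2) * (Nat.sqrt n + 1) := by exact_mod_cast h4
    have h6 : (Nat.sqrt n : ℝ) ≤ Real.sqrt n := Real.nat_sqrt_le_real_sqrt
    have h7 : (1 : ℝ) ≤ Real.sqrt n := by
      rw [Real.one_le_sqrt]
      exact_mod_cast (by omega : 1 ≤ n)
    have h8 : (n : ℝ) ^ (3 / 2 : ℝ) = n * Real.sqrt n := by
      rw [show (3 / 2 : ℝ) = 1 + 1 / 2 by norm_num, Real.rpow_add (by positivity), Real.rpow_one,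
        ← Real.sqrt_eq_rpow]
    have h9 : (3 : ℝ) ≤ n := by exact_mod_cast hn
    rw [h8]
    calc (lamP n T K E : ℝ) ≤ (n + 2) * (Nat.sqrt n + 1) := h5
      _ ≤ (2 * n) * (2 * Real.sqrt n) := mul_le_mul (by linarith) (by linarith) (by positivity) (by positivity)
      _ = 4 * (n * Real.sqrt n) := by ring

end Pool.Agent.Results.MP_30c5a0_lc.PlacedLabels
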