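import Mathlib
import Pool.Agent.Hhelper71.LD43.Final

/-!
# Distance labelings of cycles need `n ^ (4/3 + ε)` labels

`lam n` is the minimum number of labels in a distance labeling of the cycles `C_3, ..., C_n`.
We prove that there is an absolute constant `ε > 0` with `n ^ (4/3 + ε) < lam n` for all large `n`.
-/

namespace Pool.Agent.Results.MP_30c5a0_lc.PowerLower

open Filter

/-- `φ` (a map from the vertices of the disjoint cycles `C_i`, here `Fin i` with Mathlib's
`SimpleGraph.cycleGraph i`, to a set `L` of labels) is a distance labeling of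
`{C_3, ..., C_n}`: there is `d' : L × L → ℤ` with `d' (φ u) (φ v) = d(u, v)` whenever `u, v` lie
in the same cycle `C_i`, `3 ≤ i ≤ n`. -/
def IsDistanceLabeling (n : ℕ) {L : Type} (φ : (i : ℕ) → Fin i → L) : Prop :=
  ∃ d' : L → L → ℤ, ∀ i : ℕ, 3 ≤ i → i ≤ n → ∀ u v : Fin i,
    d' (φ i u) (φ i v) = ((SimpleGraph.cycleGraph i).dist u v : ℤ)

/-- the set of labels used by `φ` on the cycles `C_3, ..., C_n` -/
def labelsUsed (n : ℕ) {L : Type} (φ : (i : ℕ) → Fin i → L) : Set L :=
  {x | ∃ i : ℕ, 3 ≤ i ∧ i ≤ n ∧ ∃ u : Fin i, φ i u = x}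

/-- `λ(n)`: the minimum, over all distance labelings of `{C_3, ..., C_n}`, of the number of
distinct labels used -/
noncomputable def lam (n : ℕ) : ℕ :=
  sInf {k : ℕ | ∃ (L : Type) (φ : (i : ℕ) → Fin i → L),
    IsDistanceLabeling n φ ∧ (labelsUsed n φ).ncard = k}

/-- the minimum in the definition of `lam` is attained (every labeling uses finitely many labels
and labelings exist) -/
theorem lam_attained (n : ℕ) : ∃ (L : Type) (φ : (i : ℕ) → Fin i → L),
    IsDistanceLabeling n φ ∧ (labelsUsed n φ).ncard = lam n := by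
  have hne : {k : ℕ | ∃ (L : Type) (φ : (i : ℕ) → Fin i → L),
      IsDistanceLabeling n φ ∧ (labelsUsed n φ).ncard = k}.Nonempty := by
    classical
    refine ⟨_, (Σ i : ℕ, Fin i), fun i u => ⟨i, u⟩, ⟨fun x y => if h : x.1 = y.1 then
      ((SimpleGraph.cycleGraph y.1).dist (h ▸ x.2) y.2 : ℤ) else 0, ?_⟩, rfl⟩
    intro i _ _ u v
    simp
  exact Nat.sInf_mem hne

/-- There is an absolute constant `ε > 0` such that `λ(n) > n ^ (4/3 + ε)` for all large `n`. -/
theorem result : ∃ ε > (0 : ℝ), ∀ᶠ n : ℕ in atTop, (n : ℝ) ^ (4 / 3 + ε) < (lam n : ℝ) := by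
  obtain ⟨ε, hε, H⟩ := Pool.Agent.Hhelper71.LD43.labeling_lower
  refine ⟨ε, hε, ?_⟩
  filter_upwards [H] with n h
  obtain ⟨L, φ, h1, h2⟩ := lam_attained n
  rw [← h2]
  exact h L φ h1

end Pool.Agent.Results.MP_30c5a0_lc.PowerLower
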